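import Pool.Agent.helper50.PHN.Spec

set_option autoImplicit false

namespace Pool.Agent.PHN

open Finset

lemma DQB_pt (Y : ℝ) (q a b : ℕ) (hq : q.Prime) (ha1 : 1 ≤ a) (haY : (a : ℝ) ≤ Y)
    (hqa : q ∣ a.totient) (hqb : q ∣ b.totient) :
    (Nat.gcd a.totient b.totient : ℝ) / (a.totient * b.totient) ≤
      ∑ e ∈ Icc 1 ⌊Y⌋₊, ((q : ℝ) * e) * ((if e * q ∣ a.totient then 1 / (a.totient : ℝ) else 0) *
        (if e * q ∣ b.totient then 1 / (b.totient : ℝ) else 0)) := by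
  have hpa : 0 < a.totient := Nat.totient_pos.2 ha1
  set g := Nat.gcd a.totient b.totient with hg
  have hgpos : 0 < g := Nat.gcd_pos_of_pos_left _ hpa
  obtain ⟨e, he⟩ := Nat.dvd_gcd hqa hqb
  have he' : g = e * q := by rw [hg, he, Nat.mul_comm]
  have hepos : 0 < e := by
    rcases Nat.eq_zero_or_pos e with h | h
    · rw [h, Nat.zero_mul] at he'; omega
    · exact h
  have hga : e * q ∣ a.totient := he' ▸ Nat.gcd_dvd_left _ _
  have hgb : e * q ∣ b.totient := he' ▸ Nat.gcd_dvd_right _ _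
  have heY : e ≤ ⌊Y⌋₊ := by
    apply Nat.le_floor
    have h1 : e ≤ e * q := Nat.le_mul_of_pos_right e hq.pos
    have h2 : e * q ≤ a.totient := Nat.le_of_dvd hpa hga
    have h3 : a.totient ≤ a := Nat.totient_le a
    have h4 : (e : ℝ) ≤ a := by exact_mod_cast (h1.trans h2).trans h3
    linarith
  have hmem : e ∈ Icc 1 ⌊Y⌋₊ := Finset.mem_Icc.2 ⟨hepos, heY⟩
  have hterm : (g : ℝ) / (a.totient * b.totient) =
      ((q : ℝ) * e) * ((if e * q ∣ a.totient then 1 / (a.totient : ℝ) else 0) *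
        (if e * q ∣ b.totient then 1 / (b.totient : ℝ) else 0)) := by
    rw [if_pos hga, if_pos hgb, he']
    push_cast
    rw [div_mul_div_comm, one_mul, mul_one_div]
    ring
  rw [hterm]
  refine Finset.single_le_sum (f := fun e => ((q : ℝ) * e) * ((if e * q ∣ a.totient then 1 / (a.totient : ℝ) else 0) *
        (if e * q ∣ b.totient then 1 / (b.totient : ℝ) else 0))) ?_ hmem
  intro i _
  refine mul_nonneg (by positivity) (mul_nonneg ?_ ?_)
  · split_ifs <;> positivity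
  · split_ifs <;> positivity

theorem DQB (hTAU : TAU_stmt) (hTSQ : TSQ_stmt) (hUSD : USD_stmt) : DQB_stmt := by
  intro Y R q F hY hq hF
  obtain ⟨hsub, hprime, -, -, -⟩ := hTAU
  have hq0 : (0 : ℝ) < q := by exact_mod_cast hq.pos
  have hlog : 0 ≤ Real.log Y := Real.log_nonneg hY
  have hK : 0 ≤ KK Y + 1 := by unfold KK; linarith
  set S : ℕ → ℝ := fun e => ∑ n ∈ F, (if e * q ∣ n.totient then 1 / (n.totient : ℝ) else 0) with hS
  have hS0 : ∀ e, 0 ≤ S e := by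
    intro e
    refine Finset.sum_nonneg ?_
    intro n _
    split_ifs <;> positivity
  -- step 1
  have h1 : ∑ a ∈ F, ∑ b ∈ F, (Nat.gcd a.totient b.totient : ℝ) / (a.totient * b.totient) ≤
      ∑ e ∈ Icc 1 ⌊Y⌋₊, ((q : ℝ) * e) * (S e) ^ 2 := by
    calc ∑ a ∈ F, ∑ b ∈ F, (Nat.gcd a.totient b.totient : ℝ) / (a.totient * b.totient)
        ≤ ∑ a ∈ F, ∑ b ∈ F, ∑ e ∈ Icc 1 ⌊Y⌋₊, ((q : ℝ) * e) *
          ((if e * q ∣ a.totient then 1 / (a.totient : ℝ) else 0) *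
          (if e * q ∣ b.totient then 1 / (b.totient : ℝ) else 0)) := by
          refine Finset.sum_le_sum ?_
          intro a ha
          refine Finset.sum_le_sum ?_
          intro b hb
          exact DQB_pt Y q a b hq (hF a ha).1 (hF a ha).2.1 (hF a ha).2.2.2 (hF b hb).2.2.2
      _ = ∑ a ∈ F, ∑ e ∈ Icc 1 ⌊Y⌋₊, ∑ b ∈ F, ((q : ℝ) * e) *
          ((if e * q ∣ a.totient then 1 / (a.totient : ℝ) else 0) *
          (if e * q ∣ b.totient then 1 / (b.totient : ℝ) else 0)) := by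
          refine Finset.sum_congr rfl ?_
          intro a _
          exact Finset.sum_comm
      _ = ∑ e ∈ Icc 1 ⌊Y⌋₊, ∑ a ∈ F, ∑ b ∈ F, ((q : ℝ) * e) *
          ((if e * q ∣ a.totient then 1 / (a.totient : ℝ) else 0) *
          (if e * q ∣ b.totient then 1 / (b.totient : ℝ) else 0)) := Finset.sum_comm
      _ = ∑ e ∈ Icc 1 ⌊Y⌋₊, ((q : ℝ) * e) * (S e) ^ 2 := by
          refine Finset.sum_congr rfl ?_
          intro e _
          rw [hS, sq, Finset.sum_mul_sum, Finset.mul_sum]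
          refine Finset.sum_congr rfl ?_
          intro a _
          rw [Finset.mul_sum]
  -- step 2
  have h2 : ∀ e ∈ Icc 1 ⌊Y⌋₊, ((q : ℝ) * e) * (S e) ^ 2 ≤
      (KK Y + 1) ^ (2 * R) * (R + 1) ^ 2 / q * ((tau (R + 1) e : ℝ) ^ 2 / e) := by
    intro e he
    have he1 : 1 ≤ e := (Finset.mem_Icc.1 he).1
    have he0 : (0 : ℝ) < e := by exact_mod_cast he1
    have hu := hUSD Y R (e * q) (F.filter (fun n => e * q ∣ n.totient)) hY
      (Nat.one_le_iff_ne_zero.2 (Nat.mul_ne_zero (by omega) hq.ne_zero)) (by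
        intro n hn
        rw [Finset.mem_filter] at hn
        exact ⟨(hF n hn.1).1, (hF n hn.1).2.1, (hF n hn.1).2.2.1, hn.2⟩)
    have hSe : S e = ∑ n ∈ F.filter (fun n => e * q ∣ n.totient), 1 / (n.totient : ℝ) := by
      rw [hS, Finset.sum_filter]
    have ht : (tau (R + 1) (e * q) : ℝ) ≤ tau (R + 1) e * (R + 1) := by
      have := hsub (R + 1) e q (by omega) hq.ne_zero
      rw [hprime (R + 1) q hq] at this
      exact_mod_cast this
    have hSle : S e ≤ (KK Y + 1) ^ R * (tau (R + 1) e * (R + 1)) / (e * q) := by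
      rw [hSe]
      refine hu.trans ?_
      push_cast
      refine div_le_div_of_nonneg_right ?_ (by positivity)
      exact mul_le_mul_of_nonneg_left ht (pow_nonneg hK R)
    have hsq : (S e) ^ 2 ≤ ((KK Y + 1) ^ R * (tau (R + 1) e * (R + 1)) / (e * q)) ^ 2 :=
      pow_le_pow_left₀ (hS0 e) hSle 2
    calc ((q : ℝ) * e) * (S e) ^ 2
        ≤ ((q : ℝ) * e) * ((KK Y + 1) ^ R * (tau (R + 1) e * (R + 1)) / (e * q)) ^ 2 :=
          mul_le_mul_of_nonneg_left hsq (by positivity)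
      _ = (KK Y + 1) ^ (2 * R) * (R + 1) ^ 2 / q * ((tau (R + 1) e : ℝ) ^ 2 / e) := by
          rw [pow_mul' (KK Y + 1) 2 R]
          field_simp
  have h3 := hTSQ (R + 1) Y (Icc 1 ⌊Y⌋₊) hY (by
    intro d hd
    rw [Finset.mem_Icc] at hd
    refine ⟨hd.1, ?_⟩
    exact (Nat.cast_le.2 hd.2).trans (Nat.floor_le (by linarith)))
  calc ∑ a ∈ F, ∑ b ∈ F, (Nat.gcd a.totient b.totient : ℝ) / (a.totient * b.totient)
      ≤ ∑ e ∈ Icc 1 ⌊Y⌋₊, ((q : ℝ) * e) * (S e) ^ 2 := h1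
    _ ≤ ∑ e ∈ Icc 1 ⌊Y⌋₊, (KK Y + 1) ^ (2 * R) * (R + 1) ^ 2 / q * ((tau (R + 1) e : ℝ) ^ 2 / e) :=
        Finset.sum_le_sum h2
    _ = (KK Y + 1) ^ (2 * R) * (R + 1) ^ 2 / q * ∑ e ∈ Icc 1 ⌊Y⌋₊, ((tau (R + 1) e : ℝ) ^ 2 / e) := by
        rw [Finset.mul_sum]
    _ ≤ (KK Y + 1) ^ (2 * R) * (R + 1) ^ 2 / q * (1 + Real.log Y) ^ ((R + 1) * (R + 1)) := by
        refine mul_le_mul_of_nonneg_left h3 ?_
        positivity
    _ = (KK Y + 1) ^ (2 * R) * (R + 1) ^ 2 * (1 + Real.log Y) ^ ((R + 1) * (R + 1)) / q := by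
        ring

end Pool.Agent.PHN
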